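import Pool.Agent.L0h47.RW.HB1

/-!
# Periods of weighted cones: the closure of the family
-/

set_option autoImplicit false

namespace Pool.Agent.L0h47.RW

open MvPolynomial Pool.Agent.L0h21.SN Pool.Agent.L0h21.RW

variable {V : Type} [Fintype V] [DecidableEq V] (w : V → ℕ) (d : ℕ) (G : MvPolynomial V ℂ) (e0 : ℂ)

/-- Families of functionals. -/
abbrev Fam (V : Type) : Type := ℕ → MvPolynomial V ℂ →ₗ[ℂ] ℂ

/-- The twisted derivative of a family. -/
noncomputable def Tv (v : V) (c : Fam V) : Fam V := fun m =>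
  (c m) ∘ₗ (pderiv v).toLinearMap - (c (m + 1)) ∘ₗ (LinearMap.mulLeft ℂ (pderiv v G))

/-- The product of a family with a variable. -/
noncomputable def Xv (v : V) (c : Fam V) : Fam V := fun m =>
  (c m) ∘ₗ (LinearMap.mulLeft ℂ (X v))

theorem Tv_apply (v : V) (c : Fam V) (m : ℕ) (h : MvPolynomial V ℂ) :
    Tv G v c m h = c m (pderiv v h) - c (m + 1) (pderiv v G * h) := rfl

theorem Xv_apply (v : V) (c : Fam V) (m : ℕ) (h : MvPolynomial V ℂ) :
    Xv v c m h = c m (X v * h) := rfl

/-- The closure. -/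
inductive InS (c0 : Fam V) : Fam V → Prop
  | base : InS c0 c0
  | add (a b : Fam V) : InS c0 a → InS c0 b → InS c0 (a + b)
  | smul (r : ℂ) (a : Fam V) : InS c0 a → InS c0 (r • a)
  | X (v : V) (a : Fam V) : InS c0 a → InS c0 (Xv v a)
  | T (v : V) (a : Fam V) : w v = 0 → InS c0 a → InS c0 (Tv G v a)

theorem Tv_add (v : V) (a b : Fam V) : Tv G v (a + b) = Tv G v a + Tv G v b := by
  funext m
  refine LinearMap.ext fun h => ?_
  simp only [Tv_apply, Pi.add_apply, LinearMap.add_apply]
  ring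

theorem Tv_smul (v : V) (r : ℂ) (a : Fam V) : Tv G v (r • a) = r • Tv G v a := by
  funext m
  refine LinearMap.ext fun h => ?_
  simp only [Tv_apply, Pi.smul_apply, LinearMap.smul_apply, smul_eq_mul]
  ring

theorem Tv_Tv (v u : V) (a : Fam V) : Tv G v (Tv G u a) = Tv G u (Tv G v a) := by
  funext m
  refine LinearMap.ext fun h => ?_
  simp only [Tv_apply, Derivation.leibniz, smul_eq_mul, map_add]
  rw [pderiv_comm' u v h, pderiv_comm' u v G, mul_comm h, mul_left_comm (pderiv u G)]
  ring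

theorem Tv_Xv (v u : V) (a : Fam V) :
    Tv G v (Xv u a) = Xv u (Tv G v a) + (if v = u then (-1 : ℂ) else 0) • a := by
  funext m
  refine LinearMap.ext fun h => ?_
  simp only [Tv_apply, Xv_apply, Pi.add_apply, Pi.smul_apply, LinearMap.add_apply,
    LinearMap.smul_apply, Derivation.leibniz, smul_eq_mul, map_add, pderiv_X]
  rw [mul_left_comm (X u) (pderiv v G) h]
  split_ifs with huv
  · subst huv
    rw [Pi.single_eq_same, mul_one]
    ring
  · rw [Pi.single_eq_of_ne (fun h => huv h.symm), mul_zero, map_zero]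
    ring

/-- All twisted derivatives preserve the closure. -/
theorem InS.Tpos {c0 : Fam V} (hc0 : ∀ v, 0 < w v → Tv G v c0 = 0) {c : Fam V}
    (hc : InS w G c0 c) (v : V) : InS w G c0 (Tv G v c) := by
  by_cases hv : w v = 0
  · exact InS.T v c hv hc
  have hv' : 0 < w v := Nat.pos_of_ne_zero hv
  have hzero : InS w G c0 0 := by
    have := InS.smul (w := w) (G := G) (0 : ℂ) c0 InS.base
    rwa [zero_smul] at this
  induction hc with
  | base => rw [hc0 v hv']; exact hzero
  | add a b _ _ ha hb => rw [Tv_add]; exact InS.add _ _ ha hb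
  | smul r a _ ha => rw [Tv_smul]; exact InS.smul _ _ ha
  | X u a h ha => rw [Tv_Xv]; exact InS.add _ _ (InS.X _ _ ha) (InS.smul _ _ h)
  | T u a hu _ ha => rw [Tv_Tv]; exact InS.T _ _ hu ha

/-- The degree condition. -/
theorem InS.deg (hG : IsWeightedHomogeneous w G d) {c0 : Fam V}
    (hc0 : ∀ (m : ℕ) h, OrdGE w (m * d + 1) h → c0 m h = 0) {c : Fam V}
    (hc : InS w G c0 c) : ∀ (m : ℕ) h, OrdGE w (m * d + 1) h → c m h = 0 := by
  induction hc with
  | base => exact hc0
  | add a b _ _ ha hb =>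
    intro m h hh
    rw [Pi.add_apply, LinearMap.add_apply, ha m h hh, hb m h hh, add_zero]
  | smul r a _ ha =>
    intro m h hh
    rw [Pi.smul_apply, LinearMap.smul_apply, ha m h hh, smul_zero]
  | X u a _ ha =>
    intro m h hh
    rw [Xv_apply]
    have := (OrdGE.of_zero (w := w) (MvPolynomial.X u : MvPolynomial V ℂ)).mul hh
    rw [zero_add] at this
    exact ha m _ this
  | T u a hu _ ha =>
    intro m h hh
    rw [Tv_apply, ha m _ (OrdGE.pderiv u (by rw [hu, add_zero]; exact hh)), ha (m + 1), sub_zero]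
    have h1 : OrdGE w d (pderiv u G) := OrdGE.pderiv u (by rw [hu, add_zero]; exact OrdGE.of_hom hG)
    have h2 := h1.mul hh
    rwa [show d + (m * d + 1) = (m + 1) * d + 1 by ring] at h2

/-- The equation. -/
theorem InS.e2 {c0 : Fam V} (hc0 : ∀ (m : ℕ) h, c0 (m + 1) (G * h) = ((m : ℂ) - e0) * c0 m h)
    {c : Fam V} (hc : InS w G c0 c) :
    ∀ (m : ℕ) h, c (m + 1) (G * h) = ((m : ℂ) - e0) * c m h := by
  induction hc with
  | base => exact hc0
  | add a b _ _ ha hb =>
    intro m h
    simp only [Pi.add_apply, LinearMap.add_apply, ha m h, hb m h]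
    ring
  | smul r a _ ha =>
    intro m h
    simp only [Pi.smul_apply, LinearMap.smul_apply, ha m h, smul_eq_mul]
    ring
  | X u a _ ha =>
    intro m h
    rw [Xv_apply, Xv_apply, mul_left_comm, ha]
  | T u a hu _ ha =>
    intro m h
    rw [Tv_apply, Tv_apply, Derivation.leibniz, smul_eq_mul, smul_eq_mul, map_add, ha m,
      mul_left_comm (pderiv u G) G h, ha (m + 1), mul_comm h]
    push_cast
    ring

/-- The period functionals. -/
theorem hp_of (hG : IsWeightedHomogeneous w G d)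
    (hne : ∀ (k : ℕ) (g : V → MvPolynomial V ℂ), (∀ v, w v = 0 → g v = 0) →
      G ^ (k + 1) ≠ G * dvg g + C (e0 - k) * act g G) : HP w d G e0 := by
  obtain ⟨Λ, hΛ1, hΛ⟩ := exists_functional w d G e0 hG hne
  let c0 : Fam V := fun m => (∏ i ∈ Finset.range m, ((i : ℂ) - e0)) •
    (Λ ∘ₗ (Finsupp.lsingle m : MvPolynomial V ℂ →ₗ[ℂ] (ℕ →₀ MvPolynomial V ℂ)))
  have hc0 : ∀ m h, c0 m h = (∏ i ∈ Finset.range m, ((i : ℂ) - e0)) * Λ (Finsupp.single m h) :=
    fun m h => rfl
  have hR1 : ∀ k h, Λ (Finsupp.single (k + 1) (G * h)) = Λ (Finsupp.single k h) := by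
    intro k h
    have := hΛ _ (Or.inl ⟨k, h, rfl⟩)
    rw [map_sub, sub_eq_zero] at this
    exact this
  have hR2 : ∀ k a h, IsWeightedHomogeneous w h a → a ≠ k * d → Λ (Finsupp.single k h) = 0 :=
    fun k a h h1 h2 => hΛ _ (Or.inr (Or.inl ⟨k, a, h, h1, h2, rfl⟩))
  have hR3 : ∀ k (g : V → MvPolynomial V ℂ), (∀ v, w v = 0 → g v = 0) →
      Λ (Finsupp.single k (dvg g)) + (e0 - k) * Λ (Finsupp.single (k + 1) (act g G)) = 0 := by
    intro k g hg
    have := hΛ _ (Or.inr (Or.inr ⟨k, g, hg, rfl⟩))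
    rw [map_add, map_smul, smul_eq_mul] at this
    exact this
  have h1 : ∀ (m : ℕ) h, OrdGE w (m * d + 1) h → c0 m h = 0 := by
    intro m h hh
    rw [hc0]
    have : Λ (Finsupp.single m h) = 0 := by
      have e := (finsum_eq_sum _ (weightedHomogeneousComponent_finsupp (w := w) h)).symm.trans
        (sum_weightedHomogeneousComponent w h)
      rw [← e]
      change (Λ ∘ₗ (Finsupp.lsingle m : MvPolynomial V ℂ →ₗ[ℂ] (ℕ →₀ MvPolynomial V ℂ))) _ = 0
      rw [map_sum]
      refine Finset.sum_eq_zero fun a _ => ?_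
      by_cases ha : a = m * d
      · rw [hh a (by omega), map_zero]
      · exact hR2 m a _ (weightedHomogeneousComponent_isWeightedHomogeneous a h) ha
    rw [this, mul_zero]
  have h2 : ∀ (m : ℕ) h, c0 (m + 1) (G * h) = ((m : ℂ) - e0) * c0 m h := by
    intro m h
    rw [hc0, hc0, hR1, Finset.prod_range_succ]
    ring
  have h3 : ∀ v, 0 < w v → Tv G v c0 = 0 := by
    intro v hv
    funext m
    refine LinearMap.ext fun h => ?_
    rw [Tv_apply, hc0, hc0, Finset.prod_range_succ]
    have h4 := hR3 m (Pi.single v h) (fun u hu => by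
      rw [Pi.single_eq_of_ne]
      rintro rfl
      omega)
    have h5 : dvg (Pi.single v h) = pderiv v h := by
      rw [dvg, Finset.sum_eq_single v]
      · rw [Pi.single_eq_same]
      · intro u _ hu
        rw [Pi.single_eq_of_ne hu, map_zero]
      · simp
    have h6 : act (Pi.single v h) G = pderiv v G * h := by
      rw [act, Finset.sum_eq_single v]
      · rw [Pi.single_eq_same, mul_comm]
      · intro u _ hu
        rw [Pi.single_eq_of_ne hu, zero_mul]
      · simp
    rw [h5, h6] at h4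
    change _ = (0 : ℂ)
    linear_combination (∏ i ∈ Finset.range m, ((i : ℂ) - e0)) * h4
  refine ⟨{c | InS w G c0 c}, ?_, ?_, ?_, ?_, ?_⟩
  · intro c hc m h hh
    exact InS.deg w d G hG h1 hc m h fun a ha => hh a (by omega)
  · intro c hc
    exact InS.e2 w G e0 h2 hc
  · intro c hc i
    exact ⟨Tv G i c, InS.Tpos w G h3 hc i, fun m h => rfl⟩
  · intro c hc i
    exact ⟨Xv i c, InS.X i c hc, fun m h => rfl⟩
  · refine ⟨c0, InS.base, ?_⟩
    rw [hc0]
    simpa using hΛ1

end Pool.Agent.L0h47.RW
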