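import Pool.Agent.L0h21.RW.StmB
import Pool.Agent.L0h47.RW.HB2

/-!
# Periods of weighted cones
-/

set_option autoImplicit false

namespace Pool.Agent.L0h47.RW

open MvPolynomial Pool.Agent.L0h21.SN Pool.Agent.L0h21.RW Pool.Agent.H628R4.TP

theorem hb : S_HB := by
  intro V J _ _ _ _ w f e m c h hcard hf hm hc hh0 hh hsnc
  classical
  have hne : ∃ v, 0 < w v := by
    have : 0 < Fintype.card (Pos w) := by omega
    obtain ⟨v⟩ := Fintype.card_pos_iff.mp this
    exact ⟨v.1, v.2⟩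
  obtain ⟨l, hl, hl2⟩ := gen_dep1 w hne h hh0 hh f e hf hsnc
  have hd : 0 < ∑ j, m j * e j := by
    obtain ⟨j, -⟩ := Function.ne_iff.mp hl
    exact lt_of_lt_of_le (Nat.mul_pos (hm j.1) j.2)
      (Finset.single_le_sum (f := fun j => m j * e j) (fun _ _ => Nat.zero_le _)
        (Finset.mem_univ j.1))
  have hG : IsWeightedHomogeneous w (C c * ∏ j, f j ^ m j) (∑ j, m j * e j) := by
    have h1 : IsWeightedHomogeneous w (∏ j, f j ^ m j) (∑ j, m j * e j) :=
      IsWeightedHomogeneous.prod _ _ _ fun j _ => (hf j).pow (m j)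
    have h2 := (isWeightedHomogeneous_C w c).mul h1
    rwa [zero_add] at h2
  refine ⟨hd, hp_of w _ _ _ hG fun k g hg heq => ?_⟩
  have := root_core w (genP1 w) f e hf m hm c hc hd hcard
    (fun j hj => gen_ne1 w hne h hh0 hh f (fun P hP => (hsnc P hP).mpr) j
      (by rw [← hj]; exact hf j))
    (fun x hx => gen_snc1 w hne h hh0 hh f e (fun P hP => (hsnc P hP).mpr) x hx) ⟨l, hl, hl2⟩
    1 (-((∑ v, w v : ℕ) : ℂ) / (∑ j, m j * e j : ℕ)) rfl
    ⟨k, g, hg, by rw [map_one, one_mul]; exact heq⟩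
  exact one_ne_zero this

end Pool.Agent.L0h47.RW
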