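import Pool.Agent.L0h21.RW.PerDef2
import Pool.Agent.L0h21.SN.Low

/-!
# Periods of polynomials: from the initial form to the polynomial
-/

set_option autoImplicit false

namespace Pool.Agent.L0h47.RW

open MvPolynomial Pool.Agent.L0h21.SN Pool.Agent.L0h21.RW

variable {V : Type} (d : ℕ) (F₁ : MvPolynomial V ℂ)

/-- The partial sums of the expansion. -/
noncomputable def hatN (N : ℕ) (c : ℕ → MvPolynomial V ℂ →ₗ[ℂ] ℂ) : ℕ → MvPolynomial V ℂ →ₗ[ℂ] ℂ :=
  fun m => ∑ k ∈ Finset.range N, ((-1 : ℂ) ^ k / (k.factorial : ℂ)) •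
    ((c (m + k)) ∘ₗ (LinearMap.mulLeft ℂ (F₁ ^ k)))

theorem hatN_apply (N : ℕ) (c : ℕ → MvPolynomial V ℂ →ₗ[ℂ] ℂ) (m : ℕ) (h : MvPolynomial V ℂ) :
    hatN F₁ N c m h = ∑ k ∈ Finset.range N, ((-1 : ℂ) ^ k / (k.factorial : ℂ)) *
      c (m + k) (F₁ ^ k * h) := by
  simp [hatN]

/-- The expansion. -/
noncomputable def hat (c : ℕ → MvPolynomial V ℂ →ₗ[ℂ] ℂ) : ℕ → MvPolynomial V ℂ →ₗ[ℂ] ℂ :=
  fun m => hatN F₁ (m * d + 1) c m

theorem OrdGE.pow' {w : V → ℕ} {a : ℕ} {p : MvPolynomial V ℂ} (h : OrdGE w a p) (n : ℕ) :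
    OrdGE w (n * a) (p ^ n) := by
  induction n with
  | zero => rw [zero_mul]; exact OrdGE.of_zero _
  | succ n ih =>
    rw [pow_succ, Nat.succ_mul]
    exact ih.mul h

variable {d F₁}

theorem van {w : V → ℕ} (hF : OrdGE w (d + 1) F₁) {c : ℕ → MvPolynomial V ℂ →ₗ[ℂ] ℂ}
    (hc : ∀ (m : ℕ) h, (∀ a ≤ m * d, weightedHomogeneousComponent w a h = 0) → c m h = 0)
    (m k : ℕ) (hk : m * d + 1 ≤ k * (d + 1)) (h : MvPolynomial V ℂ) :
    c m (F₁ ^ k * h) = 0 := by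
  refine hc m _ fun a ha => ?_
  have h1 := (OrdGE.pow' hF k).mul (OrdGE.of_zero (w := w) h)
  exact h1 a (by omega)

theorem hat_eq {w : V → ℕ} (hF : OrdGE w (d + 1) F₁) {c : ℕ → MvPolynomial V ℂ →ₗ[ℂ] ℂ}
    (hc : ∀ (m : ℕ) h, (∀ a ≤ m * d, weightedHomogeneousComponent w a h = 0) → c m h = 0)
    (m N : ℕ) (hN : m * d + 1 ≤ N) (h : MvPolynomial V ℂ) :
    hat d F₁ c m h = hatN F₁ N c m h := by
  rw [hat, hatN_apply, hatN_apply]
  refine Finset.sum_subset (Finset.range_mono hN) fun k _ hk => ?_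
  rw [van hF hc (m + k) k, mul_zero]
  rw [Finset.mem_range, not_lt] at hk
  nlinarith

theorem hatN_e2 {G : MvPolynomial V ℂ} {e0 : ℂ} {c : ℕ → MvPolynomial V ℂ →ₗ[ℂ] ℂ}
    (he : ∀ (m : ℕ) h, c (m + 1) (G * h) = ((m : ℂ) - e0) * c m h) (N m : ℕ)
    (h : MvPolynomial V ℂ) :
    hatN F₁ N c (m + 1) ((G + F₁) * h) = ((m : ℂ) - e0) * hatN F₁ N c m h +
      (if N = 0 then 0 else ((-1 : ℂ) ^ (N - 1) / ((N - 1).factorial : ℂ)) * c (m + N) (F₁ ^ N * h)) := by
  induction N with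
  | zero => simp [hatN_apply]
  | succ N ih =>
    rw [hatN_apply, Finset.sum_range_succ, ← hatN_apply, ih, hatN_apply F₁ (N + 1),
      Finset.sum_range_succ, ← hatN_apply, if_neg (Nat.succ_ne_zero N), Nat.add_sub_cancel]
    have h1 : F₁ ^ N * ((G + F₁) * h) = G * (F₁ ^ N * h) + F₁ ^ (N + 1) * h := by ring
    rw [h1, map_add, show m + 1 + N = (m + N) + 1 by ring, he (m + N), ← add_assoc m N 1]
    cases N with
    | zero => simp; ring
    | succ n =>
      rw [if_neg (Nat.succ_ne_zero n), Nat.add_sub_cancel, Nat.factorial_succ]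
      have h2 : (n.factorial : ℂ) ≠ 0 := by exact_mod_cast n.factorial_ne_zero
      have h3 : ((n : ℂ) + 1) ≠ 0 := by exact_mod_cast n.succ_ne_zero
      push_cast
      field_simp
      ring

theorem hatN_d2 {G : MvPolynomial V ℂ} {c c' : ℕ → MvPolynomial V ℂ →ₗ[ℂ] ℂ} (i : V)
    (he : ∀ (m : ℕ) h, c m (pderiv i h) - c (m + 1) (pderiv i G * h) = c' m h) (N m : ℕ)
    (h : MvPolynomial V ℂ) :
    hatN F₁ N c m (pderiv i h) - hatN F₁ N c (m + 1) (pderiv i (G + F₁) * h) =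
      hatN F₁ N c' m h -
      (if N = 0 then 0 else ((-1 : ℂ) ^ (N - 1) / ((N - 1).factorial : ℂ)) *
        c (m + N) (F₁ ^ (N - 1) * (pderiv i F₁ * h))) := by
  induction N with
  | zero => simp [hatN_apply]
  | succ N ih =>
    rw [hatN_apply, Finset.sum_range_succ, ← hatN_apply, hatN_apply F₁ (N + 1) c (m + 1),
      Finset.sum_range_succ, ← hatN_apply, hatN_apply F₁ (N + 1) c' m,
      Finset.sum_range_succ, ← hatN_apply, if_neg (Nat.succ_ne_zero N), Nat.add_sub_cancel]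
    have h1 : F₁ ^ N * pderiv i h = pderiv i (F₁ ^ N * h) - (N : ℂ) • (F₁ ^ (N - 1) * (pderiv i F₁ * h)) := by
      rw [Derivation.leibniz, Derivation.leibniz_pow, smul_eq_C_mul]
      simp only [smul_eq_mul, nsmul_eq_mul, map_natCast]
      ring
    have h2 : F₁ ^ N * (pderiv i (G + F₁) * h) = pderiv i G * (F₁ ^ N * h) +
        F₁ ^ N * (pderiv i F₁ * h) := by
      rw [map_add]; ring
    have h2' : c (m + 1 + N) (F₁ ^ N * (pderiv i (G + F₁) * h)) =
        c (m + N + 1) (pderiv i G * (F₁ ^ N * h)) + c (m + N + 1) (F₁ ^ N * (pderiv i F₁ * h)) := by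
      rw [h2, map_add, show m + 1 + N = (m + N) + 1 by ring]
    rw [h1, h2', map_sub, map_smul, smul_eq_mul, ← he (m + N), ← add_assoc m N 1]
    have h3 : hatN F₁ N c m (pderiv i h) = hatN F₁ N c (m + 1) (pderiv i (G + F₁) * h) +
      (hatN F₁ N c' m h -
      (if N = 0 then 0 else ((-1 : ℂ) ^ (N - 1) / ((N - 1).factorial : ℂ)) *
        c (m + N) (F₁ ^ (N - 1) * (pderiv i F₁ * h)))) := by rw [← ih]; ring
    rw [h3]
    cases N with
    | zero => simp; ring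
    | succ n =>
      rw [if_neg (Nat.succ_ne_zero n)]
      simp only [Nat.add_sub_cancel, Nat.factorial_succ]
      have h4 : (n.factorial : ℂ) ≠ 0 := by exact_mod_cast n.factorial_ne_zero
      have h5 : ((n : ℂ) + 1) ≠ 0 := by exact_mod_cast n.succ_ne_zero
      generalize hatN F₁ (n + 1) c (m + 1) (pderiv i (G + F₁) * h) = a1
      generalize hatN F₁ (n + 1) c' m h = a2
      generalize c (m + (n + 1)) (F₁ ^ n * (pderiv i F₁ * h)) = a3
      generalize c (m + (n + 1)) (pderiv i (F₁ ^ (n + 1) * h)) = a4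
      generalize c (m + (n + 1) + 1) (pderiv i G * (F₁ ^ (n + 1) * h)) = a5
      generalize c (m + (n + 1) + 1) (F₁ ^ (n + 1) * (pderiv i F₁ * h)) = a6
      push_cast
      field_simp
      ring

theorem t : S_T := by
  intro V _ w d F G e0 hd hF1 hF2 he hHP
  obtain ⟨S, hS1, hS2, hS3, hS4, c₀, hc₀, hc₀1⟩ := hHP
  set F₁ := F - G with hF₁
  have hF : G + F₁ = F := by rw [hF₁]; ring
  have hOF : OrdGE w d F := hF1
  have hOF₁ : OrdGE w (d + 1) F₁ := by rw [hF₁, ← hF2]; exact ord_succ hOF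
  have hE1 : ∀ c ∈ S, ∀ h, hat d F₁ c 0 (F * h) = 0 := by
    intro c hc h
    rw [hat, hatN_apply, zero_mul, zero_add, Finset.sum_range_one]
    have h1 : c 0 (F * h) = 0 := by
      refine hS1 c hc 0 _ fun a ha => ?_
      have h2 := hOF.mul (OrdGE.of_zero (w := w) h)
      exact h2 a (by omega)
    simp [h1]
  have hE2 : ∀ c ∈ S, ∀ (m : ℕ) h, hat d F₁ c (m + 1) (F * h) = ((m : ℂ) - e0) * hat d F₁ c m h := by
    intro c hc m h
    set N := (m + 1) * d + 1 with hN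
    rw [hat_eq hOF₁ (hS1 c hc) (m + 1) N le_rfl, hat_eq hOF₁ (hS1 c hc) m N (by
      rw [hN]; nlinarith), ← hF, hatN_e2 (hS2 c hc), if_neg (Nat.succ_ne_zero _),
      van hOF₁ (hS1 c hc) (m + N) N (by rw [hN]; nlinarith), mul_zero, add_zero]
  have hD2 : ∀ c ∈ S, ∀ i, ∀ c' ∈ S, (∀ (m : ℕ) h,
      c m (pderiv i h) - c (m + 1) (pderiv i G * h) = c' m h) → ∀ (m : ℕ) h,
      hat d F₁ c m (pderiv i h) - hat d F₁ c (m + 1) (pderiv i F * h) = hat d F₁ c' m h := by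
    intro c hc i c' hc' hcc m h
    set N := (m + 1) * d + 2 with hN
    rw [hat_eq hOF₁ (hS1 c hc) (m + 1) N (by omega), hat_eq hOF₁ (hS1 c hc) m N (by
      rw [hN]; nlinarith), hat_eq hOF₁ (hS1 c' hc') m N (by rw [hN]; nlinarith), ← hF,
      hatN_d2 i hcc, if_neg (Nat.succ_ne_zero _),
      van hOF₁ (hS1 c hc) (m + N) (N - 1) (by
        rw [show N - 1 = (m + 1) * d + 1 by omega, hN]; nlinarith), mul_zero, sub_zero]
  refine ⟨{c | ∃ c' ∈ S, c = hat d F₁ c'}, ⟨?_, ?_, ?_, ?_, ?_⟩, hat d F₁ c₀, ⟨c₀, hc₀, rfl⟩, ?_⟩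
  · rintro _ ⟨c, hc, rfl⟩ h
    exact hE1 c hc h
  · rintro _ ⟨c, hc, rfl⟩ m h
    exact hE2 c hc m h
  · rintro _ ⟨c, hc, rfl⟩ i h
    by_cases h1 : e0 = -1
    · rw [hat, hatN_apply, zero_mul, zero_add, Finset.sum_range_one]
      have h2 : c 0 (pderiv i F * h) = 0 := by
        refine hS1 c hc 0 _ fun a ha => ?_
        have h3 : OrdGE w (d - w i) (pderiv i F) := OrdGE.pderiv i (hOF.mono (by
          have := he h1 i
          omega))
        have h4 := h3.mul (OrdGE.of_zero (w := w) h)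
        exact h4 a (by have := he h1 i; omega)
      simp [h2]
    · obtain ⟨c', hc', hcc⟩ := hS3 c hc i
      have h2 := hD2 c hc i c' hc' hcc 0 (F * h)
      rw [hE1 c' hc', Derivation.leibniz, smul_eq_mul, smul_eq_mul, map_add, hE1 c hc, zero_add,
        mul_left_comm, hE2 c hc, mul_comm h] at h2
      have h3 : (1 + e0) * hat d F₁ c 0 (pderiv i F * h) = 0 := by
        rw [← h2]
        push_cast
        ring
      rcases mul_eq_zero.1 h3 with h4 | h4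
      · exact absurd (by linear_combination h4) h1
      · exact h4
  · rintro _ ⟨c, hc, rfl⟩ i
    obtain ⟨c', hc', hcc⟩ := hS3 c hc i
    exact ⟨_, ⟨c', hc', rfl⟩, hD2 c hc i c' hc' hcc⟩
  · rintro _ ⟨c, hc, rfl⟩ i
    obtain ⟨c', hc', hcc⟩ := hS4 c hc i
    refine ⟨_, ⟨c', hc', rfl⟩, fun m h => ?_⟩
    rw [hat, hat, hatN_apply, hatN_apply]
    refine Finset.sum_congr rfl fun k _ => ?_
    rw [mul_left_comm (F₁ ^ k), hcc]
  · rw [hat, hatN_apply, zero_mul, zero_add, Finset.sum_range_one]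
    simpa using hc₀1

end Pool.Agent.L0h47.RW
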