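import Pool.Agent.L0h21.RW.PerDef2
import Pool.Agent.L0h21.SN.Low

/-!
# Periods of weighted cones: the functional
-/

set_option autoImplicit false

namespace Pool.Agent.L0h47.RW

open MvPolynomial Pool.Agent.L0h21.SN

variable {V : Type} [Fintype V] [DecidableEq V] (w : V → ℕ) (d : ℕ) (G : MvPolynomial V ℂ) (e0 : ℂ)

/-- The relations between the symbols `h G ^ (e0 - k)`. -/
def Rset : Set (ℕ →₀ MvPolynomial V ℂ) :=
  {x | (∃ (k : ℕ) (h : MvPolynomial V ℂ), x = Finsupp.single (k + 1) (G * h) - Finsupp.single k h) ∨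
    (∃ (k a : ℕ) (h : MvPolynomial V ℂ), IsWeightedHomogeneous w h a ∧ a ≠ k * d ∧
      x = Finsupp.single k h) ∨
    ∃ (k : ℕ) (g : V → MvPolynomial V ℂ), (∀ v, w v = 0 → g v = 0) ∧
      x = Finsupp.single k (dvg g) + (e0 - k) • Finsupp.single (k + 1) (act g G)}

/-- Multiplication by `G ^ M`, in degree `M d`. -/
noncomputable def Phi (M : ℕ) : (ℕ →₀ MvPolynomial V ℂ) →ₗ[ℂ] MvPolynomial V ℂ :=
  Finsupp.lsum ℂ fun k => (weightedHomogeneousComponent w (M * d)) ∘ₗ
    (LinearMap.mulLeft ℂ (G ^ (M - k)))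

theorem Phi_single (M k : ℕ) (h : MvPolynomial V ℂ) :
    Phi w d G M (Finsupp.single k h) = weightedHomogeneousComponent w (M * d) (G ^ (M - k) * h) := by
  simp [Phi]

theorem dvg_mul_pow (n : ℕ) (g : V → MvPolynomial V ℂ) :
    G * dvg (fun v => G ^ n * g v) = G ^ (n + 1) * dvg g + C (n : ℂ) * (G ^ n * act g G) := by
  simp only [dvg, act, Finset.mul_sum, ← Finset.sum_add_distrib]
  refine Finset.sum_congr rfl fun v _ => ?_
  rw [Derivation.leibniz, Derivation.leibniz_pow]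
  simp only [smul_eq_mul, nsmul_eq_mul]
  cases n with
  | zero => simp
  | succ n =>
    simp only [Nat.add_sub_cancel, map_natCast]
    ring

theorem act_mul_pow (n : ℕ) (g : V → MvPolynomial V ℂ) :
    act (fun v => G ^ n * g v) G = G ^ n * act g G := by
  simp only [act, Finset.mul_sum]
  exact Finset.sum_congr rfl fun v _ => by ring

theorem Phi_rel (hG : IsWeightedHomogeneous w G d) (x : ℕ →₀ MvPolynomial V ℂ)
    (hx : x ∈ Submodule.span ℂ (Rset w d G e0)) :
    ∃ N₀ : ℕ, ∀ N ≥ N₀, ∃ g : V → MvPolynomial V ℂ, (∀ v, w v = 0 → g v = 0) ∧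
      Phi w d G (N + 1) x = G * dvg g + C (e0 - N) * act g G := by
  induction hx using Submodule.span_induction with
  | mem x hx =>
    rcases hx with ⟨k, h, rfl⟩ | ⟨k, a, h, hh, ha, rfl⟩ | ⟨k, g, hg, rfl⟩
    · refine ⟨k, fun N hN => ⟨fun _ => 0, fun _ _ => rfl, ?_⟩⟩
      rw [map_sub, Phi_single, Phi_single, ← map_sub]
      have : G ^ (N + 1 - (k + 1)) * (G * h) - G ^ (N + 1 - k) * h = 0 := by
        rw [show N + 1 - k = (N + 1 - (k + 1)) + 1 by omega]
        ring
      rw [this, map_zero]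
      simp [dvg, act]
    · refine ⟨k, fun N hN => ⟨fun _ => 0, fun _ _ => rfl, ?_⟩⟩
      rw [Phi_single]
      have h1 : IsWeightedHomogeneous w (G ^ (N + 1 - k) * h) ((N + 1 - k) • d + a) :=
        (hG.pow _).mul hh
      rw [h1.weightedHomogeneousComponent_ne]
      · simp [dvg, act]
      · intro h2
        apply ha
        rw [smul_eq_mul, Nat.sub_mul] at h2
        have h3 : k * d ≤ (N + 1) * d := Nat.mul_le_mul_right _ (by omega)
        omega
    · refine ⟨k, fun N hN => ⟨fun v => weightedHomogeneousComponent w (N * d + w v)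
        (G ^ (N - k) * g v), fun v hv => by
          simp only [hg v hv, mul_zero, map_zero], ?_⟩⟩
      rw [act_whc w hG (N * d) (fun v => G ^ (N - k) * g v),
        dvg_whc w (N * d) (fun v => G ^ (N - k) * g v), mul_comm G, ← whc_mul w hG,
        ← weightedHomogeneousComponent_C_mul, ← map_add, mul_comm _ G, dvg_mul_pow, act_mul_pow,
        map_add, map_smul, Phi_single, Phi_single, ← map_smul, ← map_add,
        show N * d + d = (N + 1) * d by ring]
      congr 1
      rw [show N + 1 - k = N - k + 1 by omega, show N + 1 - (k + 1) = N - k by omega, smul_eq_C_mul,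
        Nat.cast_sub hN]
      simp only [map_sub]
      ring
  | zero => exact ⟨0, fun N _ => ⟨fun _ => 0, fun _ _ => rfl, by simp [dvg, act]⟩⟩
  | add x y _ _ hx hy =>
    obtain ⟨N₁, h1⟩ := hx
    obtain ⟨N₂, h2⟩ := hy
    refine ⟨max N₁ N₂, fun N hN => ?_⟩
    obtain ⟨g₁, hg₁, h3⟩ := h1 N (le_trans (le_max_left _ _) hN)
    obtain ⟨g₂, hg₂, h4⟩ := h2 N (le_trans (le_max_right _ _) hN)
    refine ⟨fun v => g₁ v + g₂ v, fun v hv => by simp only [hg₁ v hv, hg₂ v hv, add_zero], ?_⟩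
    rw [map_add, h3, h4]
    simp only [dvg, act, map_add, add_mul, Finset.sum_add_distrib]
    ring
  | smul a x _ hx =>
    obtain ⟨N₁, h1⟩ := hx
    refine ⟨N₁, fun N hN => ?_⟩
    obtain ⟨g₁, hg₁, h3⟩ := h1 N hN
    refine ⟨fun v => a • g₁ v, fun v hv => by simp only [hg₁ v hv, smul_zero], ?_⟩
    rw [map_smul, h3]
    simp only [dvg, act, Derivation.map_smul, smul_mul_assoc, ← Finset.smul_sum, mul_smul_comm,
      smul_add]

/-- The functional. -/
theorem exists_functional (hG : IsWeightedHomogeneous w G d)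
    (hne : ∀ (k : ℕ) (g : V → MvPolynomial V ℂ), (∀ v, w v = 0 → g v = 0) →
      G ^ (k + 1) ≠ G * dvg g + C (e0 - k) * act g G) :
    ∃ Λ : (ℕ →₀ MvPolynomial V ℂ) →ₗ[ℂ] ℂ, Λ (Finsupp.single 0 1) ≠ 0 ∧
      ∀ x ∈ Rset w d G e0, Λ x = 0 := by
  have h1 : Finsupp.single 0 1 ∉ Submodule.span ℂ (Rset w d G e0) := by
    intro h
    obtain ⟨N, hN⟩ := Phi_rel w d G e0 hG _ h
    obtain ⟨g, hg, h2⟩ := hN N le_rfl
    refine hne N g hg ?_
    rw [← h2, Phi_single, mul_one, Nat.sub_zero]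
    have h3 : IsWeightedHomogeneous w (G ^ (N + 1)) ((N + 1) * d) := hG.pow _
    rw [h3.weightedHomogeneousComponent_same]
  obtain ⟨Λ, hΛ, hΛ2⟩ := Submodule.exists_le_ker_of_notMem h1
  exact ⟨Λ, hΛ, fun x hx => hΛ2 (Submodule.subset_span hx)⟩

end Pool.Agent.L0h47.RW
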